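import Pool.Agent.Helper6.TRI.Defs
import Pool.Agent.Helper77.TRI.Pl
import Pool.Agent.Helper4.CV.Pencil

/-!
# CV, block K1b: the growth of `V ^ m` is linear up to a bounded error, with an integer slope
-/

set_option autoImplicit false

namespace Pool.Agent.CV

open Module Pool.Agent.TRI

/-- multiplication by `a ≠ 0` does not change the dimension -/
private theorem fr31 {k E : Type*} [Field k] [Field E] [Algebra k E] {a : E} (ha : a ≠ 0) (W : Submodule k E) :
    finrank k ↥(Submodule.span k {a} * W) = finrank k ↥W := by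
  have h1 : Submodule.span k {a} * W = W.map (LinearMap.mulLeft k a) := by
    ext x
    rw [Submodule.mem_span_singleton_mul]
    simp [Submodule.mem_map]
  rw [h1]
  exact (Submodule.equivMapOfInjective _ (fun x y h => mul_left_cancel₀ ha h) W).symm.finrank_eq

theorem grow_lin_of {k E : Type*} [Field k] [Field E] [Algebra k E] {V : Submodule k E} [FiniteDimensional k V]
    (hC : Crv V) (hp : ∃ (a b : E) (m0 : ℕ), a ∈ V ∧ b ∈ V ∧ a ≠ 0 ∧ b ≠ 0 ∧
      ∀ m, m0 ≤ m → V ^ (m + 1) = Submodule.span k {a, b} * V ^ m) : ∃ e C : ℕ, ∀ m : ℕ, finrank k ↥(V ^ m) ≤ e * m + C ∧ e * m ≤ finrank k ↥(V ^ m) + C := by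
  obtain ⟨a, b, m0, haV, hbV, ha, hb, hm0⟩ := hp
  have hfg : ∀ m, (V ^ m).FG := fun m => ((Submodule.fg_iff_finiteDimensional V).2 inferInstance).pow m
  have hfd : ∀ m, FiniteDimensional k ↥(V ^ m) := fun m => (Submodule.fg_iff_finiteDimensional _).1 (hfg m)
  set d : ℕ → ℕ := fun m => finrank k ↥(V ^ m) with hd
  have hmono : ∀ m, d m ≤ d (m + 1) := fun m => by
    have := hfd (m + 1)
    exact Submodule.finrank_mono (mono77 hC.one (Nat.le_succ m))
  have hconc : ∀ m, m0 ≤ m + 1 → d (m + 2) + d m ≤ 2 * d (m + 1) := by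
    intro m hm
    have := hfd m
    have := hfd (m + 1)
    have e1 : V ^ (m + 2) = (Submodule.span k {a} * V ^ (m + 1)) ⊔ (Submodule.span k {b} * V ^ (m + 1)) := by
      rw [← Submodule.sup_mul, ← Submodule.span_insert, ← hm0 (m + 1) hm]
    have e0 : Submodule.span k {a * b} = Submodule.span k {a} * Submodule.span k {b} := by
      rw [Submodule.span_mul_span, Set.singleton_mul_singleton]
    have e2 : Submodule.span k {a * b} * V ^ m ≤ (Submodule.span k {a} * V ^ (m + 1)) ⊓ (Submodule.span k {b} * V ^ (m + 1)) := by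
      have ha' : Submodule.span k {a} ≤ V := by simpa [Submodule.span_le] using haV
      have hb' : Submodule.span k {b} ≤ V := by simpa [Submodule.span_le] using hbV
      refine le_inf ?_ ?_
      · rw [e0, mul_assoc, pow_succ']
        exact mul_le_mul' le_rfl (mul_le_mul' hb' le_rfl)
      · rw [e0, mul_comm (Submodule.span k {a}), mul_assoc, pow_succ']
        exact mul_le_mul' le_rfl (mul_le_mul' ha' le_rfl)
    have f1 : FiniteDimensional k ↥(Submodule.span k {a} * V ^ (m + 1)) :=
      (Submodule.fg_iff_finiteDimensional _).1 ((Submodule.fg_span_singleton a).mul (hfg _))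
    have f2 : FiniteDimensional k ↥(Submodule.span k {b} * V ^ (m + 1)) :=
      (Submodule.fg_iff_finiteDimensional _).1 ((Submodule.fg_span_singleton b).mul (hfg _))
    have e3 := Submodule.finrank_sup_add_finrank_inf_eq (Submodule.span k {a} * V ^ (m + 1)) (Submodule.span k {b} * V ^ (m + 1))
    rw [← e1, fr31 ha, fr31 hb] at e3
    have e4 := Submodule.finrank_mono e2
    rw [fr31 (mul_ne_zero ha hb)] at e4
    simp only [hd]
    omega
  -- the increments
  have hanti : ∀ m, m0 ≤ m + 1 → d (m + 2) - d (m + 1) ≤ d (m + 1) - d m := by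
    intro m hm
    have := hconc m hm
    have := hmono m
    have := hmono (m + 1)
    omega
  obtain ⟨m1, h1, hmin⟩ : ∃ m1, m0 ≤ m1 ∧ ∀ m, m0 ≤ m → d (m1 + 1) - d m1 ≤ d (m + 1) - d m := by
    have hne : ∃ e, ∃ m1, m0 ≤ m1 ∧ d (m1 + 1) - d m1 = e := ⟨_, m0, le_rfl, rfl⟩
    classical
    obtain ⟨m1, h1, h2⟩ := Nat.find_spec hne
    exact ⟨m1, h1, fun m hm => by rw [h2]; exact Nat.find_min' hne ⟨m, hm, rfl⟩⟩
  set e := d (m1 + 1) - d m1 with he
  have hcon : ∀ j, d (m1 + j + 1) - d (m1 + j) = e := by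
    intro j
    induction j with
    | zero => simp [he]
    | succ j ih =>
      refine le_antisymm ?_ (hmin _ (by omega))
      rw [← ih]
      exact hanti (m1 + j) (by omega)
  have hval : ∀ j, d (m1 + j) = d m1 + e * j := by
    intro j
    induction j with
    | zero => simp
    | succ j ih =>
      have h3 := hcon j
      have h4 := hmono (m1 + j)
      have : d (m1 + j + 1) = d (m1 + j) + e := by omega
      rw [← add_assoc, this, ih]
      ring
  have hmon : Monotone d := monotone_nat_of_le_succ hmono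
  refine ⟨e, d m1 + e * m1, fun m => ?_⟩
  rcases le_total m1 m with h | h
  · obtain ⟨j, rfl⟩ := Nat.exists_eq_add_of_le h
    have := hval j
    change d (m1 + j) ≤ _ ∧ _ ≤ d (m1 + j) + _
    rw [this]
    constructor <;> nlinarith
  · have h5 : d m ≤ d m1 := hmon h
    have h6 : e * m ≤ e * m1 := Nat.mul_le_mul_left _ h
    change d m ≤ _ ∧ _ ≤ d m + _
    constructor
    · exact h5.trans (by nlinarith)
    · nlinarith

/-- the growth of `V ^ m` is linear up to a bounded error, with an integer slope -/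
theorem grow_lin {k E : Type*} [Field k] [CharZero k] [Field E] [Algebra k E] {V : Submodule k E} [FiniteDimensional k V]
    (hC : Crv V) : ∃ e C : ℕ, ∀ m : ℕ, finrank k ↥(V ^ m) ≤ e * m + C ∧ e * m ≤ finrank k ↥(V ^ m) + C :=
  grow_lin_of hC (pencil hC)

end Pool.Agent.CV
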