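import Pool.Agent.Helper42.CV.MDefs
import Pool.Agent.Helper6.TRI.FinS
import Pool.Agent.Helper29.TRI.VDefs

/-!
# CV, M3: the space of the limit of points on moving curves has linear growth
-/

set_option autoImplicit false

namespace Pool.Agent.CV

open Module MvPolynomial NumberField Filter Pool.Agent.TRI
open Pool.Agent.Helper64.Vojta (Pl nv sn above)
open Pool.Agent.Chart (fld dg crd hgt val lam)

universe u

/-- linear systems with slow coefficients: solutions for all members of a sequence give a slow solution -/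
private theorem solve {k : Type u} [Field k] [NumberField k] {N : ℕ} {x : ℕ → Fin (N + 1) → AlgebraicClosure k} {k' E : Type u}
    [Field k'] [Field E] [Algebra k k'] [Algebra k' E] [Algebra k E] [IsScalarTower k k' E] {γ : (ℕ → k) → k'} {ξ : Fin (N + 1) → E}
    (hT : Trf x γ ξ) (hsur : ∀ z : k', ∃ b, SlowS x b ∧ γ b = z) {ι R C : Type} [Fintype ι] [Fintype R] [Fintype C]
    (g : ι → ℕ → k) (hg : ∀ i, SlowS x (g i)) (Q : R → C → MvPolynomial ι k) (I : C → Prop)
    (h : ∀ a, ∃ u : C → k, (∀ r, ∑ c, u c * aeval (fun i => g i a) (Q r c) = 0) ∧ ∃ c, I c ∧ u c ≠ 0) :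
    ∃ u : C → ℕ → k, (∀ c, SlowS x (u c)) ∧ (∃ c, I c ∧ γ (u c) ≠ 0) ∧
      ∀ᶠ a in (hyperfilter ℕ : Filter ℕ), ∀ r, ∑ c, u c a * aeval (fun i => g i a) (Q r c) = 0 := by
  classical
  set A : R → C → k' := fun r c => aeval (fun i => γ (g i)) (Q r c) with hA
  -- a solution over `k'`
  have hsol : ∃ u : C → k', (∀ r, ∑ c, u c * A r c = 0) ∧ ∃ c, I c ∧ u c ≠ 0 := by
    by_contra hcon
    push Not at hcon
    let L : R → ((C → k') →ₗ[k'] k') := fun r => ∑ c, A r c • LinearMap.proj c
    have hL : ∀ r u, L r u = ∑ c, u c * A r c := by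
      intro r u
      simp only [L, LinearMap.sum_apply, LinearMap.smul_apply, LinearMap.proj_apply, smul_eq_mul]
      exact Finset.sum_congr rfl fun c _ => mul_comm _ _
    have h1 : ∀ c₀, ∃ μ : R → k', I c₀ → ∀ c, ∑ r, μ r * A r c = if c = c₀ then 1 else 0 := by
      intro c₀
      by_cases hc₀ : I c₀
      · have h2 : (⨅ r, LinearMap.ker (L r)) ≤ LinearMap.ker (LinearMap.proj c₀ : (C → k') →ₗ[k'] k') := by
          intro u hu
          rw [Submodule.mem_iInf] at hu
          rw [LinearMap.mem_ker, LinearMap.proj_apply]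
          refine hcon u (fun r => ?_) c₀ hc₀
          rw [← hL]
          exact LinearMap.mem_ker.1 (hu r)
        have h3 := mem_span_of_iInf_ker_le_ker h2
        obtain ⟨μ, hμ⟩ := (Submodule.mem_span_range_iff_exists_fun _).1 h3
        refine ⟨μ, fun _ c => ?_⟩
        have h4 := LinearMap.congr_fun hμ (Pi.single c 1)
        rw [LinearMap.sum_apply, LinearMap.proj_apply, Pi.single_apply] at h4
        have h5 : ∀ r, (μ r • L r) (Pi.single c 1) = μ r * A r c := by
          intro r
          rw [LinearMap.smul_apply, hL, smul_eq_mul]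
          congr 1
          rw [Finset.sum_eq_single c]
          · rw [Pi.single_eq_same, one_mul]
          · intro b _ hb
            rw [Pi.single_eq_of_ne hb, zero_mul]
          · intro hb
            exact absurd (Finset.mem_univ c) hb
        rw [Finset.sum_congr rfl fun r _ => h5 r] at h4
        rw [h4]
        exact if_congr eq_comm rfl rfl
      · exact ⟨0, fun hc => absurd hc hc₀⟩
    choose μ hμ using h1
    choose M hM1 hM2 using fun c₀ r => hsur (μ c₀ r)
    have h2 : ∀ c₀ c, ∀ᶠ a in (hyperfilter ℕ : Filter ℕ), I c₀ →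
        ∑ r, M c₀ r a * aeval (fun i => g i a) (Q r c) = if c = c₀ then 1 else 0 := by
      intro c₀ c
      by_cases hc₀ : I c₀
      · set δ : k := if c = c₀ then 1 else 0 with hδ
        have h3 := (hT.slow (ι := ι ⊕ R) (Sum.elim g (M c₀)) (by rintro (i | i); exacts [hg i, hM1 c₀ i])
          (∑ r, X (Sum.inr r) * rename Sum.inl (Q r c) - MvPolynomial.C δ)).1 (by
            rw [map_sub, map_sum, aeval_C]
            have h4 : ∀ r, aeval (fun i => γ (Sum.elim g (M c₀) i)) (X (Sum.inr r) * rename Sum.inl (Q r c)) =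
                μ c₀ r * A r c := by
              intro r
              rw [map_mul, aeval_X, aeval_rename]
              show γ (M c₀ r) * _ = _
              rw [hM2]
              rfl
            rw [Finset.sum_congr rfl fun r _ => h4 r, hμ c₀ hc₀ c, hδ]
            split_ifs <;> simp)
        filter_upwards [h3] with a ha _
        rw [map_sub, map_sum, aeval_C, sub_eq_zero] at ha
        refine Eq.trans ?_ ha
        refine Finset.sum_congr rfl fun r _ => ?_
        rw [map_mul, aeval_X, aeval_rename]
        rfl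
      · exact Eventually.of_forall fun a hc => absurd hc hc₀
    obtain ⟨a, ha⟩ := (eventually_all.2 fun c₀ => eventually_all.2 (h2 c₀)).exists
    obtain ⟨u, hu, c₀, hc₀, hne⟩ := h a
    apply hne
    calc u c₀ = ∑ c, u c * (if c = c₀ then 1 else 0) := by simp
      _ = ∑ c, u c * ∑ r, M c₀ r a * aeval (fun i => g i a) (Q r c) :=
        Finset.sum_congr rfl fun c _ => by rw [ha c₀ c hc₀]
      _ = ∑ r, M c₀ r a * ∑ c, u c * aeval (fun i => g i a) (Q r c) := by
        simp_rw [Finset.mul_sum]
        rw [Finset.sum_comm]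
        exact Finset.sum_congr rfl fun r _ => Finset.sum_congr rfl fun c _ => by ring
      _ = 0 := Finset.sum_eq_zero fun r _ => by rw [hu r, mul_zero]
  obtain ⟨u, hu, c₀, hc₀, hne⟩ := hsol
  choose U hU1 hU2 using fun c => hsur (u c)
  refine ⟨U, hU1, ⟨c₀, hc₀, by rw [hU2]; exact hne⟩, eventually_all.2 fun r => ?_⟩
  have h3 := (hT.slow (ι := ι ⊕ C) (Sum.elim g U) (by rintro (i | i); exacts [hg i, hU1 i])
    (∑ c, X (Sum.inr c) * rename Sum.inl (Q r c))).1 (by
      rw [map_sum]
      refine Eq.trans (Finset.sum_congr rfl fun c _ => ?_) (hu r)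
      rw [map_mul, aeval_X, aeval_rename]
      show γ (U c) * _ = _
      rw [hU2]
      rfl)
  filter_upwards [h3] with a ha
  rw [map_sum] at ha
  refine Eq.trans (Finset.sum_congr rfl fun c _ => ?_) ha
  rw [map_mul, aeval_X, aeval_rename]
  rfl

/-- the monomial of a multiset -/
private noncomputable def mn (k : Type*) [Field k] {N : ℕ} (t : Multiset (Fin N)) : MvPolynomial (Fin N) k := (t.map X).prod

private theorem mn_hom (k : Type*) [Field k] {N : ℕ} (t : Multiset (Fin N)) : (mn k t).IsHomogeneous (Multiset.card t) := by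
  unfold mn
  induction t using Multiset.induction_on with
  | empty => simpa using isHomogeneous_one (Fin N) k
  | cons a t ih =>
    rw [Multiset.map_cons, Multiset.prod_cons, Multiset.card_cons, Nat.add_comm]
    exact (isHomogeneous_X k a).mul ih

private theorem fm_hom {k : Type*} [Field k] {N e : ℕ} (c : Sym (Fin N) e → k) : (fm c).IsHomogeneous e := by
  unfold fm
  refine IsHomogeneous.sum _ _ _ fun s _ => ?_
  have h := (isHomogeneous_C (Fin N) (c s)).mul (mn_hom k (s : Multiset (Fin N)))
  rwa [Nat.zero_add, Sym.card_coe] at h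

/-- the monomial of a product of coordinates of the Veronese image -/
private noncomputable def mv (k : Type*) [Field k] {N N' d : ℕ} (v : Fin (N' + 1) ≃ Sym (Fin (N + 1)) d) (t : Multiset (Fin (N' + 1))) :
    MvPolynomial (Fin (N + 1)) k :=
  (t.map fun j => mn k (v j : Multiset (Fin (N + 1)))).prod

private theorem mv_hom (k : Type*) [Field k] {N N' d : ℕ} (v : Fin (N' + 1) ≃ Sym (Fin (N + 1)) d) (t : Multiset (Fin (N' + 1))) :
    (mv k v t).IsHomogeneous (d * Multiset.card t) := by
  unfold mv
  induction t using Multiset.induction_on with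
  | empty => simpa using isHomogeneous_one (Fin (N + 1)) k
  | cons a t ih =>
    rw [Multiset.map_cons, Multiset.prod_cons, Multiset.card_cons, Nat.mul_succ, Nat.add_comm (d * _) d]
    have h := (mn_hom k (v a : Multiset (Fin (N + 1)))).mul ih
    rwa [Sym.card_coe] at h

private theorem mv_val {k K : Type*} [Field k] [Field K] [Algebra k K] {N N' d : ℕ} (v : Fin (N' + 1) ≃ Sym (Fin (N + 1)) d)
    (t : Multiset (Fin (N' + 1))) (y : Fin (N + 1) → K) : aeval y (mv k v t) = (t.map (ver v y)).prod := by
  unfold mv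
  rw [map_multiset_prod, Multiset.map_map]
  congr 1
  refine Multiset.map_congr rfl fun j _ => ?_
  show aeval y (mn k _) = ver v y j
  unfold mn ver
  rw [map_multiset_prod, Multiset.map_map]
  congr 1
  refine Multiset.map_congr rfl fun i _ => ?_
  exact aeval_X _ _

attribute [local instance] MvPolynomial.gradedAlgebra

/-- more than `B (n + 1)` forms of degree `n` are dependent modulo the ideal, with homogeneous coefficients -/
private theorem rel {k : Type u} [Field k] {N s e B n T : ℕ} {G : Fin s → Sym (Fin (N + 1)) e → k} (hG : Cur B G)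
    (p : Fin T → MvPolynomial (Fin (N + 1)) k) (hp : ∀ i, (p i).IsHomogeneous n) (hT : B * (n + 1) < T) :
    ∃ (c : Fin T → k) (E : Fin s → MvPolynomial (Fin (N + 1)) k), (∃ i, c i ≠ 0) ∧ (∀ j, (E j).IsHomogeneous (n - e)) ∧
      ∑ i, MvPolynomial.C (c i) * p i = ∑ j, E j * fm (G j) := by
  classical
  set Φ := (Ideal.Quotient.mkₐ k (Ideal.span (Set.range fun j => fm (G j)))).toLinearMap with hΦ
  set V := (homogeneousSubmodule (Fin (N + 1)) k n).map Φ with hV
  have : Module.Finite k (homogeneousSubmodule (Fin (N + 1)) k n) := Module.Finite.iff_fg.2 (homogeneousSubmodule_fg _ _ n)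
  have hfin : Module.Finite k V := Module.Finite.map _ _
  have hmem : ∀ i, Φ (p i) ∈ V := fun i => Submodule.mem_map_of_mem ((mem_homogeneousSubmodule n (p i)).2 (hp i))
  have hdep : ¬ LinearIndependent k fun i => (⟨Φ (p i), hmem i⟩ : V) := by
    intro h
    have h1 := h.fintype_card_le_finrank
    rw [Fintype.card_fin] at h1
    have h2 : finrank k V ≤ B * (n + 1) := hG n
    omega
  rw [Fintype.not_linearIndependent_iff] at hdep
  obtain ⟨c, hc, i₀, hi₀⟩ := hdep
  have h1 : ∑ i, MvPolynomial.C (c i) * p i ∈ Ideal.span (Set.range fun j => fm (G j)) := by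
    rw [← Ideal.Quotient.eq_zero_iff_mem]
    have h2 := congrArg (Subtype.val : V → _) hc
    rw [Submodule.coe_sum] at h2
    have h3 : Φ (∑ i, MvPolynomial.C (c i) * p i) = 0 := by
      rw [map_sum]
      refine Eq.trans (Finset.sum_congr rfl fun i _ => ?_) h2
      rw [← smul_eq_C_mul, map_smul]
      rfl
    exact h3
  obtain ⟨E, hE⟩ := Ideal.mem_span_range_iff_exists_fun.1 h1
  refine ⟨c, fun j => if e ≤ n then homogeneousComponent (n - e) (E j) else 0, ⟨i₀, hi₀⟩, fun j => ?_, ?_⟩
  · dsimp only
    split_ifs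
    · exact homogeneousComponent_isHomogeneous _ _
    · exact isHomogeneous_zero _ _ _
  · have h2 : homogeneousComponent n (∑ i, MvPolynomial.C (c i) * p i) = ∑ i, MvPolynomial.C (c i) * p i := by
      refine (homogeneousComponent_of_mem ?_).trans (if_pos rfl)
      rw [mem_homogeneousSubmodule]
      refine IsHomogeneous.sum _ _ _ fun i _ => ?_
      have := (isHomogeneous_C (Fin (N + 1)) (c i)).mul (hp i)
      rwa [Nat.zero_add] at this
    rw [← h2, ← hE, map_sum]
    refine Finset.sum_congr rfl fun j _ => ?_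
    have hj : fm (G j) ∈ homogeneousSubmodule (Fin (N + 1)) k e := (mem_homogeneousSubmodule e _).2 (fm_hom (G j))
    split_ifs with hen
    · have h3 := DirectSum.coe_decompose_mul_of_right_mem_of_le (homogeneousSubmodule (Fin (N + 1)) k) (a := E j) hj hen
      have h4 : ∀ (q : MvPolynomial (Fin (N + 1)) k) (i : ℕ),
          ((DirectSum.decompose (homogeneousSubmodule (Fin (N + 1)) k) q i : _) : MvPolynomial (Fin (N + 1)) k) =
            homogeneousComponent i q := fun q i => decomposition.decompose'_apply q i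
      rw [h4, h4] at h3
      exact h3
    · have h3 := DirectSum.coe_decompose_mul_of_right_mem_of_not_le (homogeneousSubmodule (Fin (N + 1)) k) (a := E j) hj hen
      have h4 : ∀ (q : MvPolynomial (Fin (N + 1)) k) (i : ℕ),
          ((DirectSum.decompose (homogeneousSubmodule (Fin (N + 1)) k) q i : _) : MvPolynomial (Fin (N + 1)) k) =
            homogeneousComponent i q := fun q i => decomposition.decompose'_apply q i
      rw [h4] at h3
      rw [zero_mul]
      exact h3

theorem growth_m {k : Type u} [Field k] [NumberField k] {N N' d s e B : ℕ} (v : Fin (N' + 1) ≃ Sym (Fin (N + 1)) d)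
    (y : ℕ → Fin (N + 1) → AlgebraicClosure k) (G : ℕ → Fin s → Sym (Fin (N + 1)) e → k) (hG : ∀ a, Cur B (G a))
    (hGy : ∀ a j, aeval (y a) (fm (G a j)) = 0) (hGs : ∀ j t, SlowS (fun a => ver v (y a)) fun a => G a j t)
    {k' E : Type u} [Field k'] [Field E] [Algebra k k'] [Algebra k' E] [Algebra k E] [IsScalarTower k k' E] {γ : (ℕ → k) → k'}
    {ξ : Fin (N' + 1) → E} (hT : Trf (fun a => ver v (y a)) γ ξ) (hsur : ∀ z : k', ∃ b, SlowS (fun a => ver v (y a)) b ∧ γ b = z)
    (m : ℕ) : finrank k' ↥((Submodule.span k' (Set.range ξ)) ^ m) ≤ B * (d * m + 1) := by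
  classical
  by_contra hcon
  push Not at hcon
  set n := d * m with hn
  -- `T` independent products
  let f : Sym (Fin (N' + 1)) m → E := fun t => ((t : Multiset (Fin (N' + 1))).map ξ).prod
  have hspan : (Submodule.span k' (Set.range ξ)) ^ m ≤ Submodule.span k' (Set.range f) := by
    rw [Submodule.span_pow]
    refine Submodule.span_mono ?_
    intro z hz
    rw [Set.mem_pow] at hz
    obtain ⟨g, rfl⟩ := hz
    choose j hj using fun i => (g i).2
    refine ⟨⟨(List.ofFn j : Multiset (Fin (N' + 1))), by simp⟩, ?_⟩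
    show ((List.ofFn j : Multiset (Fin (N' + 1))).map ξ).prod = _
    rw [Multiset.map_coe, Multiset.prod_coe, List.map_ofFn]
    congr 2
    funext i
    exact hj i
  obtain ⟨b, hb1, hb2, hb3⟩ := exists_linearIndependent k' (Set.range f)
  have hbfin : b.Finite := (Set.finite_range f).subset hb1
  have : Fintype b := hbfin.fintype
  have hcard : B * (n + 1) + 1 ≤ Fintype.card b := by
    have h1 : finrank k' ↥((Submodule.span k' (Set.range ξ)) ^ m) ≤ finrank k' (Submodule.span k' (Set.range f)) := by
      have : Module.Finite k' (Submodule.span k' (Set.range f)) := Module.Finite.span_of_finite k' (Set.finite_range f)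
      exact Submodule.finrank_mono hspan
    rw [← hb2, finrank_span_set_eq_card hb3, Set.toFinset_card] at h1
    omega
  obtain ⟨emb⟩ : Nonempty (Fin (B * (n + 1) + 1) ↪ b) := by
    rw [Function.Embedding.nonempty_iff_card_le, Fintype.card_fin]
    exact hcard
  set T := B * (n + 1) + 1 with hTdef
  choose w hw using fun i : Fin T => hb1 (emb i).2
  have hind : LinearIndependent k' fun i => f (w i) := by
    have h1 := hb3.comp emb emb.injective
    have h2 : (fun i => f (w i)) = (Subtype.val : b → E) ∘ emb := funext fun i => hw i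
    rw [h2]
    exact h1
  -- the linear system
  let Bf : Finset (Fin (N + 1) →₀ ℕ) := Finset.finsuppAntidiag Finset.univ (n - e)
  let C₀ : Type := Fin T ⊕ (Fin s × {b // b ∈ Bf})
  let mo : (Fin (N + 1) →₀ ℕ) → Sym (Fin (N + 1)) e → MvPolynomial (Fin (N + 1)) k := fun b t =>
    monomial b 1 * mn k (t : Multiset (Fin (N + 1)))
  let S : Finset (Fin (N + 1) →₀ ℕ) := (Finset.univ.biUnion fun i : Fin T => (mv k v (w i : Multiset (Fin (N' + 1)))).support) ∪
    Finset.univ.biUnion fun p : {b // b ∈ Bf} × Sym (Fin (N + 1)) e => (mo p.1.1 p.2).support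
  let Qf : (Fin (N + 1) →₀ ℕ) → C₀ → MvPolynomial (Fin s × Sym (Fin (N + 1)) e) k := fun r c => match c with
    | Sum.inl i => MvPolynomial.C (coeff r (mv k v (w i : Multiset (Fin (N' + 1)))))
    | Sum.inr p => ∑ t, MvPolynomial.C (coeff r (mo p.2.1 t)) * X (p.1, t)
  let pol : ℕ → (C₀ → k) → MvPolynomial (Fin (N + 1)) k := fun a u =>
    ∑ i, MvPolynomial.C (u (Sum.inl i)) * mv k v (w i : Multiset (Fin (N' + 1))) +
      ∑ j, (∑ b : {b // b ∈ Bf}, monomial b.1 (u (Sum.inr (j, b)))) * fm (G a j)
  have hcoef : ∀ (a : ℕ) (u : C₀ → k) (r : Fin (N + 1) →₀ ℕ),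
      coeff r (pol a u) = ∑ c, u c * aeval (fun p : Fin s × Sym (Fin (N + 1)) e => G a p.1 p.2) (Qf r c) := by
    intro a u r
    rw [Fintype.sum_sum_type, Fintype.sum_prod_type]
    simp only [pol, Qf, coeff_add, coeff_sum, coeff_C_mul, aeval_C, map_sum, map_mul, aeval_X, Algebra.algebraMap_self, RingHom.id_apply]
    congr 1
    refine Finset.sum_congr rfl fun j _ => ?_
    rw [Finset.sum_mul, coeff_sum]
    refine Finset.sum_congr rfl fun b _ => ?_
    unfold fm
    rw [Finset.mul_sum, coeff_sum, Finset.mul_sum]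
    refine Finset.sum_congr rfl fun t _ => ?_
    have h1 : monomial b.1 (u (Sum.inr (j, b))) = MvPolynomial.C (u (Sum.inr (j, b))) * monomial b.1 (1 : k) := by
      rw [C_mul_monomial, mul_one]
    have h2 : monomial b.1 (u (Sum.inr (j, b))) * (MvPolynomial.C (G a j t) * ((t : Multiset (Fin (N + 1))).map X).prod) =
        MvPolynomial.C (u (Sum.inr (j, b))) * (MvPolynomial.C (G a j t) * mo b.1 t) := by
      rw [h1]
      show _ = MvPolynomial.C _ * (MvPolynomial.C _ * (monomial b.1 1 * ((t : Multiset (Fin (N + 1))).map X).prod))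
      ring
    rw [h2, coeff_C_mul, coeff_C_mul, mul_comm (G a j t)]
  obtain ⟨U, hU1, ⟨c₀, ⟨i₀, rfl⟩, hU2⟩, hU3⟩ := solve hT hsur (ι := Fin s × Sym (Fin (N + 1)) e) (R := {r // r ∈ S}) (C := C₀)
    (fun p a => G a p.1 p.2) (fun p => hGs p.1 p.2) (fun r c => Qf r.1 c) (fun c => ∃ i, c = Sum.inl i) (by
      intro a
      obtain ⟨c, F, ⟨i, hi⟩, hF1, hF2⟩ := rel (hG a) (n := n) (T := T) (fun i => mv k v (w i : Multiset (Fin (N' + 1))))
        (fun i => by
          have h1 := mv_hom k v (w i : Multiset (Fin (N' + 1)))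
          rwa [Sym.card_coe] at h1) (by omega)
      refine ⟨Sum.elim c fun p => -coeff p.2.1 (F p.1), fun r => ?_, Sum.inl i, ⟨i, rfl⟩, hi⟩
      rw [← hcoef a]
      have h1 : ∀ j, ∑ b : {b // b ∈ Bf}, monomial b.1 (-coeff b.1 (F j)) = - F j := by
        intro j
        rw [Finset.sum_coe_sort Bf fun b => monomial b (-coeff b (F j))]
        simp only [map_neg, Finset.sum_neg_distrib]
        congr 1
        refine Eq.trans (Finset.sum_subset ?_ ?_).symm (support_sum_monomial_coeff (F j))
        · intro b hb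
          rw [Finset.mem_finsuppAntidiag]
          refine ⟨?_, Finset.subset_univ _⟩
          have h2 : b.degree = n - e := by
            by_contra h3
            exact (mem_support_iff.1 hb) ((hF1 j).coeff_eq_zero h3)
          rw [← h2, Finsupp.degree_eq_sum]
        · intro b _ hb
          rw [notMem_support_iff.1 hb, map_zero]
      have h2 : pol a (Sum.elim c fun p => -coeff p.2.1 (F p.1)) = 0 := by
        show ∑ i, MvPolynomial.C (c i) * mv k v (w i : Multiset (Fin (N' + 1))) +
          ∑ j, (∑ b : {b // b ∈ Bf}, monomial b.1 (-coeff b.1 (F j))) * fm (G a j) = 0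
        rw [hF2]
        simp only [h1, neg_mul, Finset.sum_neg_distrib, add_neg_cancel]
      rw [h2, coeff_zero])
  -- the relation between the products
  have hrel : ∀ᶠ a in (hyperfilter ℕ : Filter ℕ), aeval (Sum.elim (fun i : Fin T => algebraMap k (AlgebraicClosure k) (U (Sum.inl i) a))
      (ver v (y a))) (∑ i : Fin T, X (Sum.inl i) * ((w i : Multiset (Fin (N' + 1))).map fun j => X (Sum.inr j)).prod :
        MvPolynomial (Fin T ⊕ Fin (N' + 1)) k) = 0 := by
    filter_upwards [hU3] with a ha
    have h1 : pol a (fun c => U c a) = 0 := by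
      ext r
      rw [coeff_zero]
      by_cases hr : r ∈ S
      · refine (hcoef a (fun c => U c a) r).trans ?_
        exact ha ⟨r, hr⟩
      · refine (hcoef a (fun c => U c a) r).trans ?_
        refine Finset.sum_eq_zero fun c _ => ?_
        have h2 : Qf r c = 0 := by
          rcases c with i | p
          · show MvPolynomial.C _ = 0
            rw [notMem_support_iff.1 (fun h => hr (Finset.mem_union_left _ (Finset.mem_biUnion.2 ⟨i, Finset.mem_univ _, h⟩))), C_0]
          · show ∑ t, MvPolynomial.C _ * X _ = 0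
            refine Finset.sum_eq_zero fun t _ => ?_
            rw [notMem_support_iff.1 (fun h => hr (Finset.mem_union_right _
              (Finset.mem_biUnion.2 ⟨(p.2, t), Finset.mem_univ _, h⟩))), C_0, zero_mul]
        rw [h2, map_zero, mul_zero]
    have h3 := congrArg (aeval (y a)) h1
    rw [map_zero] at h3
    have h4 : aeval (y a) (pol a fun c => U c a) =
        ∑ i, algebraMap k (AlgebraicClosure k) (U (Sum.inl i) a) * ((w i : Multiset (Fin (N' + 1))).map (ver v (y a))).prod := by
      simp only [pol, map_add, map_sum, map_mul, hGy a, mul_zero, Finset.sum_const_zero, add_zero, aeval_C, mv_val]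
    rw [h4] at h3
    rw [map_sum, ← h3]
    refine Finset.sum_congr rfl fun i _ => ?_
    rw [map_mul, aeval_X, map_multiset_prod, Multiset.map_map]
    congr 2
    refine Multiset.map_congr rfl fun j _ => ?_
    exact aeval_X _ _
  have h5 := (hT.gen (fun i : Fin T => U (Sum.inl i)) (fun i => hU1 _) _).2 hrel
  have h6 : ∑ i, γ (U (Sum.inl i)) • f (w i) = 0 := by
    rw [map_sum] at h5
    rw [← h5]
    refine Finset.sum_congr rfl fun i _ => ?_
    rw [map_mul, aeval_X, map_multiset_prod, Multiset.map_map, Algebra.smul_def]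
    have h7 : f (w i) = ((w i : Multiset (Fin (N' + 1))).map ((aeval (Sum.elim (fun i : Fin T => algebraMap k' E (γ (U (Sum.inl i)))) ξ)) ∘
        fun j => (X (Sum.inr j) : MvPolynomial (Fin T ⊕ Fin (N' + 1)) k))).prod := by
      show ((w i : Multiset (Fin (N' + 1))).map ξ).prod = _
      congr 1
      refine Multiset.map_congr rfl fun j _ => ?_
      rw [Function.comp_apply, aeval_X, Sum.elim_inr]
    rw [h7]
    rfl
  exact hU2 (Fintype.linearIndependent_iff.1 hind _ h6 i₀)

end Pool.Agent.CV
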